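import Pool.Agent.helper17.RX.Spec

set_option autoImplicit false

namespace TP.TW

open DP MeasureTheory Finset

private instance ENV_prob : IsProbabilityMeasure P1 := by
  unfold P1
  infer_instance

private lemma ENV_mono {F G : Set (V → Bool)} (h : F ⊆ G) : Pr F ≤ Pr G := measureReal_mono h

private lemma ENV_nonneg (F : Set (V → Bool)) : 0 ≤ Pr F := measureReal_nonneg

private lemma ENV_one (F : Set (V → Bool)) : Pr F ≤ 1 := measureReal_le_one

private lemma ENV_dep {S : ℕ → (V → Bool) → Finset V} {Ω : Finset V} (hS : Rnd Ω S) (i : ℕ) :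
    ∀ β β' : V → Bool, (∀ v ∈ Ω, β v = β' v) → S i β = S i β' := by
  induction i with
  | zero => intro β β' _; rw [hS.1, hS.1]
  | succ i _ =>
    intro β β' h
    exact hS.2.2 i β β' (fun v hv => h v ((hS.2.1 i β).2 hv))

private lemma ENV_enum (W : Finset V) : ∃ (m : ℕ) (ε : Fin m → V) (xt : (Fin m → Bool) → V → Bool), Function.Injective ε ∧
    (∀ v ∈ W, ∃ j, ε j = v) ∧ ∀ x j, xt x (ε j) = x j := by
  classical
  refine ⟨#W, fun i => (W.equivFin.symm i).1, fun x v => if h : v ∈ W then x (W.equivFin ⟨v, h⟩) else false, ?_, ?_, ?_⟩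
  · intro i j h
    exact W.equivFin.symm.injective (Subtype.ext h)
  · intro v hv
    exact ⟨W.equivFin ⟨v, hv⟩, by simp only [Equiv.symm_apply_apply]⟩
  · intro x j
    have h1 : (W.equivFin.symm j).1 ∈ W := (W.equivFin.symm j).2
    simp only [h1, dite_true]
    congr 1
    exact W.equivFin.apply_symm_apply j

theorem ENV (enx : EN.ENX_stmt) (prn : PRN_stmt) : ENV_stmt := by
  classical
  intro κ T S Ω Λ z N E jj hE hS hNN
  rcases (ENV_nonneg E).eq_or_lt with h0 | hpos
  · have h1 : ∀ τ ∈ T, Pr (E ∩ {β | z ∈ S τ (jj + 1) β}) ≤ 0 :=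
      fun τ _ => (ENV_mono Set.inter_subset_left).trans h0.symm.le
    refine (Finset.sum_nonpos h1).trans ?_
    rw [← h0]
    simp
  · obtain ⟨m, ε, xt, hinj, hsur, hxt⟩ := ENV_enum (insert z (Λ ∪ Ω))
    obtain ⟨z', hz'⟩ : ∃ j, ε j = z := hsur z (mem_insert_self _ _)
    have hΛ : ∀ v ∈ Λ, ∃ j, ε j = v := fun v hv => hsur v (mem_insert_of_mem (mem_union_left _ hv))
    have hΩ : ∀ v ∈ Ω, ∃ j, ε j = v := fun v hv => hsur _ (mem_insert_of_mem (mem_union_right _ hv))
    have hPr : ∀ G : Set (V → Bool), (∀ β : V → Bool, xt (fun i => β (ε i)) ∈ G ↔ β ∈ G) →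
        Pr G = (#{x : Fin m → Bool | xt x ∈ G} : ℝ) / 2 ^ m := by
      intro G hG
      have h1 := prn m ε hinj (fun x => xt x ∈ G)
      have h2 : G = {β : V → Bool | xt (fun i => β (ε i)) ∈ G} := by
        ext β
        exact (hG β).symm
      refine (congrArg Pr h2).trans (h1.trans ?_)
      apply congrArg (fun k : ℕ => (k : ℝ) / 2 ^ m)
      apply congrArg
      ext x
      simp only [mem_filter]
    have hxE : ∀ β : V → Bool, xt (fun i => β (ε i)) ∈ E ↔ β ∈ E := fun β => hE _ _ (fun v hv => by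
      obtain ⟨j, hj⟩ := hΛ v hv
      rw [← hj, hxt])
    have hshift : ∀ τ ∈ T, ∀ (i : ℕ) (β : V → Bool), S τ i (xt (fun i => β (ε i))) = S τ i β := by
      intro τ hτ i β
      apply ENV_dep (hS τ hτ)
      intro v hv
      obtain ⟨j, hj⟩ := hΩ v hv
      rw [← hj, hxt]
    obtain ⟨S', hS'⟩ : ∃ S' : κ → ℕ → EN.Om m → Finset (Fin m), ∀ τ i x j, j ∈ S' τ i x ↔ ε j ∈ S τ i (xt x) :=
      ⟨fun τ i x => univ.filter (fun j => ε j ∈ S τ i (xt x)), fun τ i x j => by
        simp only [mem_filter, mem_univ, true_and]⟩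
    have hRounds : ∀ τ ∈ T, EN.Rounds (S' τ) := by
      intro τ hτ
      refine ⟨?_, ?_⟩
      · intro x
        ext j
        rw [hS' τ 0 x j, (hS τ hτ).1]
        simp
      · intro i x
        refine ⟨?_, ?_⟩
        · intro j hj
          rw [hS'] at hj ⊢
          exact ((hS τ hτ).2.1 i _).1 hj
        · intro y hy
          have h1 : S τ (i + 1) (xt x) = S τ (i + 1) (xt y) := by
            apply (hS τ hτ).2.2
            intro v hv
            obtain ⟨j, hj⟩ := hΩ v (((hS τ hτ).2.1 i _).2 hv)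
            have h2 : j ∈ S' τ i x := by
              rw [hS', hj]
              exact hv
            have h4 := hy j h2
            rw [← hj, hxt, hxt, h4]
          ext j
          rw [hS', hS', h1]
    obtain ⟨q, hq⟩ : ∃ q : ℝ, q = Pr E := ⟨_, rfl⟩
    rw [← hq] at hpos
    have hq1 : q ≤ 1 := by rw [hq]; exact ENV_one E
    have hqE : q = (#{x : Fin m → Bool | xt x ∈ E} : ℝ) / 2 ^ m := by rw [hq]; exact hPr E hxE
    obtain ⟨Q, hQ⟩ : ∃ Q : EN.Om m → ℝ, Q = fun x => if xt x ∈ E then 1 / (2 ^ m * q) else 0 := ⟨_, rfl⟩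
    have h2m : (0 : ℝ) < 2 ^ m := by positivity
    have hLaw : EN.Law Q := by
      refine ⟨?_, ?_⟩
      · intro x
        rw [hQ]
        dsimp only
        split_ifs
        · positivity
        · exact le_rfl
      · rw [hQ, ← Finset.sum_filter, Finset.sum_const, nsmul_eq_mul]
        have h1 : (#{x : Fin m → Bool | xt x ∈ E} : ℝ) = q * 2 ^ m := by
          rw [hqE]
          field_simp
        rw [h1]
        field_simp
    have hdep : ∀ x y : EN.Om m, (∀ u ∈ univ.filter (fun j => ε j ∈ Λ), x u = y u) → Q x = Q y := by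
      intro x y hxy
      have h1 : xt x ∈ E ↔ xt y ∈ E := hE _ _ (fun v hv => by
        obtain ⟨j, hj⟩ := hΛ v hv
        rw [← hj, hxt, hxt]
        apply hxy
        rw [mem_filter, hj]
        exact ⟨mem_univ _, hv⟩)
      rw [hQ]
      dsimp only
      by_cases h2 : xt x ∈ E
      · rw [if_pos h2, if_pos (h1.1 h2)]
      · rw [if_neg h2, if_neg (fun h => h2 (h1.2 h))]
    have hL : 0 ≤ Real.log (1 / q) := Real.log_nonneg (by rw [le_div_iff₀ hpos]; linarith)
    have hQL : ∀ x, Q x ≤ Real.exp (Real.log (1 / q)) / 2 ^ m := by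
      intro x
      rw [Real.exp_log (by positivity), hQ]
      dsimp only
      split_ifs
      · apply le_of_eq
        field_simp
      · positivity
    have hN : ∀ i : ℕ, ∀ v ∈ insert z' (univ.filter (fun j => ε j ∈ Λ)),
        ∑ τ ∈ T, (#{x : EN.Om m | v ∈ S' τ i x} : ℝ) / 2 ^ m ≤ N := by
      intro i v hv
      have hv0 : ε v ∈ insert z Λ := by
        rw [mem_insert] at hv ⊢
        rcases hv with h | h
        · left
          rw [h, hz']
        · right
          exact (mem_filter.1 h).2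
      refine le_trans (le_of_eq ?_) (hNN i (ε v) hv0)
      apply Finset.sum_congr rfl
      intro τ hτ
      rw [hPr {β | ε v ∈ S τ i β} (fun β => by
        simp only [Set.mem_setOf_eq]
        rw [hshift τ hτ])]
      apply congrArg (fun k : ℕ => (k : ℝ) / 2 ^ m)
      apply congrArg
      ext x
      simp only [mem_filter, mem_univ, true_and, Set.mem_setOf_eq]
      exact hS' τ i x v
    have main := enx jj m κ T S' (univ.filter (fun j => ε j ∈ Λ)) z' N hRounds hN Q (Real.log (1 / q)) hLaw hdep hL hQL z' (mem_insert_self _ _)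
    have harith : ∀ A M : ℝ, 0 < M → A / M = q * (A * (1 / (M * q))) := by
      intro A M hM
      have h1 : q ≠ 0 := hpos.ne'
      field_simp
    have hterm : ∀ τ ∈ T, Pr (E ∩ {β | z ∈ S τ (jj + 1) β}) = q * ∑ x with z' ∈ S' τ (jj + 1) x, Q x := by
      intro τ hτ
      obtain ⟨G0, hG0⟩ : ∃ G0 : Set (V → Bool), G0 = E ∩ {β | z ∈ S τ (jj + 1) β} := ⟨_, rfl⟩
      have hmem : ∀ β, β ∈ G0 ↔ β ∈ E ∧ z ∈ S τ (jj + 1) β := by
        intro β
        rw [hG0, Set.mem_inter_iff, Set.mem_setOf_eq]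
      have h1 : Pr G0 = (#{x : Fin m → Bool | xt x ∈ G0} : ℝ) / 2 ^ m := by
        apply hPr G0
        intro β
        rw [hmem, hmem, hshift τ hτ, hxE]
      have h2 : ∑ x with z' ∈ S' τ (jj + 1) x, Q x = (#{x : Fin m → Bool | xt x ∈ G0} : ℝ) * (1 / (2 ^ m * q)) := by
        rw [← nsmul_eq_mul, ← Finset.sum_const, Finset.sum_filter, Finset.sum_filter]
        apply Finset.sum_congr rfl
        intro x _
        have h3 : xt x ∈ G0 ↔ xt x ∈ E ∧ z' ∈ S' τ (jj + 1) x := by
          rw [hmem, hS', hz']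
        rw [hQ]
        dsimp only
        by_cases h4 : xt x ∈ E
        · by_cases h5 : z' ∈ S' τ (jj + 1) x
          · rw [if_pos h5, if_pos h4, if_pos (h3.2 ⟨h4, h5⟩)]
          · rw [if_neg h5, if_neg (fun h => h5 (h3.1 h).2)]
        · rw [if_neg (fun h => h4 (h3.1 h).1), if_neg h4, ite_self]
      rw [← hG0, h1, h2]
      exact harith _ _ h2m
    rw [Finset.sum_congr rfl hterm, ← Finset.mul_sum, ← hq]
    have hcard : #(univ.filter (fun j => ε j ∈ Λ)) ≤ #Λ := by
      apply Finset.card_le_card_of_injOn ε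
      · intro j hj
        exact Finset.mem_coe.2 (mem_filter.1 (Finset.mem_coe.1 hj)).2
      · exact hinj.injOn
    have hc0 : (0 : ℝ) ≤ #(univ.filter (fun j => ε j ∈ Λ)) := Nat.cast_nonneg _
    have hc1 : (#(univ.filter (fun j => ε j ∈ Λ)) : ℝ) ≤ #Λ := by exact_mod_cast hcard
    have hlog : Real.log (#(univ.filter (fun j => ε j ∈ Λ)) + 3) ≤ Real.log (#Λ + 3) :=
      Real.log_le_log (by linarith) (by linarith)
    have hlog0 : 0 ≤ Real.log (#(univ.filter (fun j => ε j ∈ Λ)) + 3) := Real.log_nonneg (by linarith)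
    have hN0 : 0 ≤ N := (Finset.sum_nonneg (fun τ _ => ENV_nonneg _)).trans (hNN 0 z (mem_insert_self _ _))
    have hj0 : (0 : ℝ) ≤ 3 * ((jj : ℝ) + 1) := by positivity
    have hpow : (68 * (Real.log (1 / q) + 3 * ((jj : ℝ) + 1) * Real.log (#(univ.filter (fun j => ε j ∈ Λ)) + 3))) ^ jj ≤
        (68 * (Real.log (1 / q) + 3 * ((jj : ℝ) + 1) * Real.log (#Λ + 3))) ^ jj := by
      have e1 := mul_le_mul_of_nonneg_left hlog hj0
      have e2 := mul_nonneg hj0 hlog0
      apply pow_le_pow_left₀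
      · linarith
      · linarith
    have s1 := mul_le_mul_of_nonneg_left main hpos.le
    have s2 := mul_le_mul_of_nonneg_left (mul_le_mul_of_nonneg_left hpow hN0) hpos.le
    exact s1.trans s2

end TP.TW
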